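import Pool.Agent.W580.SH.StmB

/-!
# Heller's bound for totally unimodular sets of vectors
-/

namespace Pool.Agent.W563.SH.Heller

open Finset Pool.Agent.W580.SH

lemma pm_one {p : ℝ} (h : p ^ 2 = 1) : p = 1 ∨ p = -1 :=
  mul_self_eq_one_iff.1 (by rw [← sq]; exact h)

section minors
variable {R : Type} {S : Set (R → ℝ)}

lemma mn1 (h : TS1 S) {x : R → ℝ} (hx : x ∈ S) (a : R) : |x a| ≤ 1 := by
  have h1 := h 1 ![a] ![x] (by intro j; fin_cases j; exact hx)
  rw [mn, Matrix.det_fin_one] at h1
  simpa using h1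

lemma mn2 (h : TS1 S) {x y : R → ℝ} (hx : x ∈ S) (hy : y ∈ S) (a b : R) :
    |x a * y b - y a * x b| ≤ 1 := by
  have h1 := h 2 ![a, b] ![x, y] (by
    intro j
    fin_cases j
    · exact hx
    · exact hy)
  rw [mn, Matrix.det_fin_two] at h1
  simpa using h1

lemma mn3 (h : TS1 S) {x y z : R → ℝ} (hx : x ∈ S) (hy : y ∈ S) (hz : z ∈ S) (a b c : R) :
    |x a * y b * z c - x a * z b * y c - y a * x b * z c + y a * z b * x c + z a * x b * y c -
      z a * y b * x c| ≤ 1 := by
  have h1 := h 3 ![a, b, c] ![x, y, z] (by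
    intro j
    fin_cases j
    · exact hx
    · exact hy
    · exact hz)
  rw [mn, Matrix.det_fin_three] at h1
  simpa using h1

/-- entries are `-1, 0, 1` -/
lemma sq_one (h : TS1 S) (hi : ∀ x ∈ S, ∀ r, ∃ n : ℤ, x r = n) {x : R → ℝ} (hx : x ∈ S) {a : R}
    (ha : x a ≠ 0) : x a ^ 2 = 1 := by
  obtain ⟨n, hn⟩ := hi x hx a
  have h1 := mn1 h hx a
  rw [hn] at h1 ha ⊢
  have h2 : |n| ≤ 1 := by exact_mod_cast h1
  have h3 : n ≠ 0 := by exact_mod_cast ha
  have h4 : n = 1 ∨ n = -1 := by
    rw [abs_le] at h2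
    omega
  rcases h4 with h4 | h4
  · rw [h4]
    norm_num
  · rw [h4]
    norm_num

/-- two vectors with the same support on two rows -/
lemma key2 (h : TS1 S) {x y : R → ℝ} (hx : x ∈ S) (hy : y ∈ S) {a b : R} (h1 : x a ^ 2 = 1)
    (h2 : x b ^ 2 = 1) (h3 : y a ^ 2 = 1) (h4 : y b ^ 2 = 1) : x a * x b = y a * y b := by
  have h5 := mn2 h hx hy a b
  have h6 : (x a * y b - y a * x b) ^ 2 ≤ 1 := by
    rw [← sq_abs]
    exact pow_le_one₀ (abs_nonneg _) h5
  have h7 : (x a * x b) ^ 2 = 1 := by
    rw [mul_pow, h1, h2, one_mul]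
  have h8 : (y a * y b) ^ 2 = 1 := by
    rw [mul_pow, h3, h4, one_mul]
  have h9 : (x a * y b - y a * x b) ^ 2 = 2 - 2 * ((x a * x b) * (y a * y b)) := by
    have e : (x a * y b - y a * x b) ^ 2 =
        x a ^ 2 * y b ^ 2 + y a ^ 2 * x b ^ 2 - 2 * ((x a * x b) * (y a * y b)) := by ring
    rw [e, h1, h2, h3, h4]
    norm_num
  rw [h9] at h6
  rcases pm_one h7 with h10 | h10
  · rcases pm_one h8 with h11 | h11
    · rw [h10, h11]
    · rw [h10, h11] at h6
      norm_num at h6
  · rcases pm_one h8 with h11 | h11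
    · rw [h10, h11] at h6
      norm_num at h6
    · rw [h10, h11]

/-- no three rows are shattered -/
lemma key3 (h : TS1 S) {x y z w : R → ℝ} (hx : x ∈ S) (hy : y ∈ S) (hz : z ∈ S) (hw : w ∈ S)
    {a b c : R} (xa : x a ^ 2 = 1) (xb : x b ^ 2 = 1) (xc : x c = 0) (ya : y a ^ 2 = 1)
    (yb : y b = 0) (yc : y c ^ 2 = 1) (za : z a = 0) (zb : z b ^ 2 = 1) (zc : z c ^ 2 = 1)
    (wa : w a ^ 2 = 1) (wb : w b ^ 2 = 1) (wc : w c ^ 2 = 1) : False := by
  have h1 := key2 h hx hw xa xb wa wb
  have h2 := key2 h hy hw ya yc wa wc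
  have h3 := key2 h hz hw zb zc wb wc
  have h4 := mn3 h hx hy hz a b c
  rw [xc, yb, za] at h4
  have h5 := pow_le_one₀ (n := 2) (abs_nonneg _) h4
  rw [sq_abs] at h5
  have h6 : (x a * 0 * z c - x a * z b * y c - y a * x b * z c + y a * z b * 0 + 0 * x b * y c -
      0 * 0 * 0) ^ 2 = x a ^ 2 * z b ^ 2 * y c ^ 2 + y a ^ 2 * x b ^ 2 * z c ^ 2 +
        2 * ((x a * x b) * (y a * y c) * (z b * z c)) := by ring
  have h7 : (w a * w b) * (w a * w c) * (w b * w c) = w a ^ 2 * w b ^ 2 * w c ^ 2 := by ring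
  rw [h6, h1, h2, h3, h7, xa, xb, ya, yc, zb, zc, wa, wb, wc] at h5
  norm_num at h5

end minors

/-- the support -/
noncomputable def sp {R : Type} [Fintype R] (x : R → ℝ) : Finset R := by
  classical exact univ.filter fun r => x r ≠ 0

lemma mem_sp {R : Type} [Fintype R] (x : R → ℝ) (r : R) : r ∈ sp x ↔ x r ≠ 0 := by
  classical
  simp [sp]

theorem main : S_HELLER := by
  intro R _ _ I S0 hs0 hi0 ht0
  classical
  -- add the zero vector
  set S : Finset (R → ℝ) := insert 0 S0 with hS
  have hs : ∀ x ∈ S, ∀ r, r ∉ I → x r = 0 := by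
    intro x hx r hr
    rcases Finset.mem_insert.1 hx with rfl | hx
    · rfl
    · exact hs0 x hx r hr
  have hi : ∀ x ∈ (S : Set (R → ℝ)), ∀ r, ∃ n : ℤ, x r = n := by
    intro x hx r
    rcases Finset.mem_insert.1 (Finset.mem_coe.1 hx) with rfl | hx
    · exact ⟨0, by simp⟩
    · exact hi0 x hx r
  have ht : TS1 (S : Set (R → ℝ)) := by
    intro k r c hc
    by_cases h : ∀ j, c j ∈ (S0 : Set (R → ℝ))
    · exact ht0 k r c h
    · push Not at h
      obtain ⟨j, hj⟩ := h
      have h1 : c j = 0 := by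
        rcases Finset.mem_insert.1 (Finset.mem_coe.1 (hc j)) with h2 | h2
        · exact h2
        · exact absurd (Finset.mem_coe.2 h2) hj
      have h2 : mn r c = 0 := by
        rw [mn]
        exact Matrix.det_eq_zero_of_column_eq_zero j fun i => by simp [h1]
      rw [h2, abs_zero]
      exact zero_le_one
  have hle : S0.card ≤ S.card := Finset.card_le_card (Finset.subset_insert _ _)
  refine hle.trans ?_
  set 𝒜 : Finset (Finset R) := S.image sp with hA
  have h0A : ∅ ∈ 𝒜 := by
    refine Finset.mem_image.2 ⟨0, Finset.mem_insert_self _ _, ?_⟩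
    ext r
    simp [mem_sp]
  have hsq : ∀ x ∈ S, ∀ r, x r ≠ 0 → x r ^ 2 = 1 := fun x hx r hr =>
    sq_one ht hi (Finset.mem_coe.2 hx) hr
  -- the fibres of the support map
  have hfib : ∀ B ∈ 𝒜, (S.filter fun x => sp x = B).card ≤ if B = ∅ then 1 else 2 := by
    intro B hB
    split_ifs with h
    · subst h
      refine Finset.card_le_one.2 fun x hx y hy => ?_
      have h1 : ∀ z ∈ S.filter (fun x => sp x = ∅), z = 0 := by
        intro z hz
        funext r
        by_contra h2
        have h3 := (mem_sp z r).2 h2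
        rw [(Finset.mem_filter.1 hz).2] at h3
        exact absurd h3 (Finset.notMem_empty r)
      rw [h1 x hx, h1 y hy]
    · obtain ⟨x, hx, hxB⟩ := Finset.mem_image.1 hB
      have h1 : (S.filter fun x => sp x = B) ⊆ {x, -x} := by
        intro y hy
        obtain ⟨hy, hyB⟩ := Finset.mem_filter.1 hy
        obtain ⟨a, ha⟩ := Finset.nonempty_iff_ne_empty.2 h
        have xa := hsq x hx a ((mem_sp x a).1 (hxB ▸ ha))
        have ya := hsq y hy a ((mem_sp y a).1 (hyB ▸ ha))
        have h2 : ∀ b, y b = (x a * y a) * x b := by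
          intro b
          by_cases hb : b ∈ B
          · have xb := hsq x hx b ((mem_sp x b).1 (hxB ▸ hb))
            have yb := hsq y hy b ((mem_sp y b).1 (hyB ▸ hb))
            have h3 := key2 ht (Finset.mem_coe.2 hx) (Finset.mem_coe.2 hy) xa xb ya yb
            calc y b = y a ^ 2 * y b := by rw [ya, one_mul]
              _ = y a * (y a * y b) := by ring
              _ = x a * y a * x b := by rw [← h3]; ring
          · have h3 : x b = 0 := by
              by_contra h4
              exact hb (hxB ▸ (mem_sp x b).2 h4)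
            have h4 : y b = 0 := by
              by_contra h4
              exact hb (hyB ▸ (mem_sp y b).2 h4)
            rw [h3, h4, mul_zero]
        have h3 : (x a * y a) ^ 2 = 1 := by rw [mul_pow, xa, ya, one_mul]
        rw [Finset.mem_insert, Finset.mem_singleton]
        rcases pm_one h3 with h4 | h4
        · left
          funext b
          rw [h2 b, h4, one_mul]
        · right
          funext b
          rw [h2 b, h4]
          simp
      exact (Finset.card_le_card h1).trans Finset.card_le_two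
  have hcard : S.card + 1 ≤ 2 * 𝒜.card := by
    have h1 : S.card = ∑ B ∈ 𝒜, (S.filter fun x => sp x = B).card :=
      Finset.card_eq_sum_card_image sp S
    have h2 := Finset.sum_le_sum hfib
    rw [← h1] at h2
    have h3 : ∑ B ∈ 𝒜, (if B = ∅ then 1 else 2) = 1 + ∑ B ∈ 𝒜.erase ∅, 2 := by
      rw [← Finset.add_sum_erase 𝒜 _ h0A, if_pos rfl]
      congr 1
      exact Finset.sum_congr rfl fun B hB => if_neg (Finset.ne_of_mem_erase hB)
    rw [h3, Finset.sum_const, Finset.card_erase_of_mem h0A, smul_eq_mul] at h2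
    have h4 : 0 < 𝒜.card := Finset.card_pos.2 ⟨_, h0A⟩
    omega
  -- no three rows are shattered
  have hshat : 𝒜.shatterer ⊆ I.powersetCard 0 ∪ I.powersetCard 1 ∪ I.powersetCard 2 := by
    intro s hs1
    rw [Finset.mem_shatterer] at hs1
    have hsI : s ⊆ I := by
      obtain ⟨t, ht1, hst⟩ := hs1.exists_superset
      obtain ⟨x, hx, rfl⟩ := Finset.mem_image.1 ht1
      intro r hr
      by_contra h
      exact (mem_sp x r).1 (hst hr) (hs x hx r h)
    have hc : s.card ≤ 2 := by
      by_contra hcon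
      push Not at hcon
      obtain ⟨t, hts, htc⟩ := Finset.exists_subset_card_eq (n := 3) (s := s) hcon
      obtain ⟨a, b, c, hab, hac, hbc, rfl⟩ := Finset.card_eq_three.1 htc
      have hsh := hs1.mono_right hts
      have hget : ∀ u : Finset R, u ⊆ {a, b, c} → ∃ x ∈ S, ∀ r ∈ ({a, b, c} : Finset R),
          (r ∈ u → x r ^ 2 = 1) ∧ (r ∉ u → x r = 0) := by
        intro u hu
        obtain ⟨v, hv, hv'⟩ := hsh hu
        obtain ⟨x, hx, rfl⟩ := Finset.mem_image.1 hv
        refine ⟨x, hx, fun r hr => ⟨fun hru => ?_, fun hru => ?_⟩⟩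
        · rw [← hv'] at hru
          exact hsq x hx r ((mem_sp x r).1 (Finset.mem_inter.1 hru).2)
        · by_contra h
          exact hru (by rw [← hv']; exact Finset.mem_inter.2 ⟨hr, (mem_sp x r).2 h⟩)
      have ma : a ∈ ({a, b, c} : Finset R) := by simp
      have mb : b ∈ ({a, b, c} : Finset R) := by simp
      have mc : c ∈ ({a, b, c} : Finset R) := by simp
      obtain ⟨x, hx, hx'⟩ := hget {a, b} (by
        intro r hr
        simp only [Finset.mem_insert, Finset.mem_singleton] at hr ⊢
        tauto)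
      obtain ⟨y, hy, hy'⟩ := hget {a, c} (by
        intro r hr
        simp only [Finset.mem_insert, Finset.mem_singleton] at hr ⊢
        tauto)
      obtain ⟨z, hz, hz'⟩ := hget {b, c} (by
        intro r hr
        simp only [Finset.mem_insert, Finset.mem_singleton] at hr ⊢
        tauto)
      obtain ⟨w, hw, hw'⟩ := hget {a, b, c} (Finset.Subset.refl _)
      refine key3 ht (Finset.mem_coe.2 hx) (Finset.mem_coe.2 hy) (Finset.mem_coe.2 hz)
        (Finset.mem_coe.2 hw) (a := a) (b := b) (c := c) ((hx' a ma).1 (by simp))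
        ((hx' b mb).1 (by simp)) ((hx' c mc).2 (by simp [hac.symm, hbc.symm]))
        ((hy' a ma).1 (by simp)) ((hy' b mb).2 (by simp [hab.symm, hbc]))
        ((hy' c mc).1 (by simp)) ((hz' a ma).2 (by simp [hab, hac])) ((hz' b mb).1 (by simp))
        ((hz' c mc).1 (by simp)) ((hw' a ma).1 ma) ((hw' b mb).1 mb) ((hw' c mc).1 mc)
    simp only [Finset.mem_union, Finset.mem_powersetCard]
    interval_cases h : s.card
    · exact Or.inl (Or.inl ⟨hsI, rfl⟩)
    · exact Or.inl (Or.inr ⟨hsI, rfl⟩)
    · exact Or.inr ⟨hsI, rfl⟩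
  have h1 : 𝒜.card ≤ 1 + I.card + I.card.choose 2 := by
    refine (Finset.card_le_card_shatterer 𝒜).trans ((Finset.card_le_card hshat).trans ?_)
    refine (Finset.card_union_le _ _).trans ?_
    rw [Finset.card_powersetCard]
    refine Nat.add_le_add_right ((Finset.card_union_le _ _).trans ?_) _
    rw [Finset.card_powersetCard, Finset.card_powersetCard, Nat.choose_zero_right,
      Nat.choose_one_right]
  have h2 : 2 * I.card.choose 2 + I.card = I.card ^ 2 := by
    generalize I.card = n
    induction n with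
    | zero => simp
    | succ n ih =>
      rw [Nat.choose_succ_succ, Nat.choose_one_right]
      nlinarith
  omega

end Pool.Agent.W563.SH.Heller
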